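import Pool.Agent.Helper993.CS.Z5

set_option autoImplicit false
open Filter Topology MvPolynomial

namespace Pool.Agent.W480
open Pool.Agent.Helper993.CS

universe u

/-- The function iterate used in the frozen statement is `iter`. -/
theorem iterate_eq_iter {K : Type u} [Field K] {N : ℕ} (f : Fin (N+1) → MvPolynomial (Fin (N+1)) K)
    (n : ℕ) : ((fun h : Fin (N+1) → MvPolynomial (Fin (N+1)) K =>
      fun j => MvPolynomial.bind₁ h (f j))^[n] MvPolynomial.X) = iter f n := by
  induction n with
  | zero => rfl
  | succ n ih =>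
    rw [Function.iterate_succ_apply', ih]
    rfl

/-- The reduced degree is the least degree of a tuple proportional to the given one. -/
theorem redDeg_sInf {K : Type u} [Field K] {N : ℕ} (P : Fin (N+1) → MvPolynomial (Fin (N+1)) K)
    (h0 : P 0 ≠ 0) (d : ℕ) (hd : RedDeg P d) :
    sInf {e : ℕ | ∃ (g : Fin (N+1) → MvPolynomial (Fin (N+1)) K)
                (c : MvPolynomial (Fin (N+1)) K), c ≠ 0 ∧
                (∀ i, P i = c * g i) ∧
                ∀ i, (g i).totalDegree ≤ e} = d := by
  obtain ⟨H, G, hH, hPG, hG, hcop⟩ := hd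
  have hG0 : G 0 ≠ 0 := by
    intro h
    exact h0 (by rw [hPG 0, h, mul_zero])
  apply le_antisymm
  · apply Nat.sInf_le
    exact ⟨G, H, hH, hPG, fun i => (hG i).totalDegree_le⟩
  · apply le_csInf
    · exact ⟨d, G, H, hH, hPG, fun i => (hG i).totalDegree_le⟩
    · rintro e ⟨g, c, hc, hPg, hge⟩
      obtain ⟨u, hu⟩ := red_assoc hPG hcop c fun i => ⟨g i, hPg i⟩
      have h1 : g 0 = u * G 0 := by
        apply mul_left_cancel₀ hc
        rw [← hPg 0, hPG 0, hu, mul_assoc]
      have hg0 : g 0 ≠ 0 := by
        intro h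
        exact h0 (by rw [hPg 0, h, mul_zero])
      have hu0 : u ≠ 0 := by
        intro h
        rw [h, zero_mul] at h1
        exact hg0 h1
      have h2 : (g 0).totalDegree = u.totalDegree + (G 0).totalDegree := by
        rw [h1, MvPolynomial.totalDegree_mul_of_isDomain hu0 hG0]
      have h3 : (G 0).totalDegree = d := (hG 0).totalDegree hG0
      have h4 := hge 0
      omega

end Pool.Agent.W480
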